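import Pool.Agent.helper132_p.P16

/-! The endpoint bound for the arithmetic k-spherical maximal function, for every `k ≥ 3`
and every dimension `d ≥ 2 k (k - 1) + 1`. -/

namespace Pool.Agent.Results.MP_ff41bc_an.EndpointTwoKKMinusOne

open Pool.Agent.helper132_sph
open scoped ENNReal NNReal

/-- For every `k ≥ 3` and every `d ≥ 2 k (k - 1) + 1` the maximal operator `A_*` is bounded
from `ℓ^{d/(d-k),1}(ℤ^d)` to `ℓ^{d/(d-k),∞}(ℤ^d)`. -/
theorem result : ∀ k : ℕ, 3 ≤ k → ∀ d : ℕ, 2 * k * (k - 1) + 1 ≤ d →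
    ∃ C : ℝ≥0, ∀ f : (Fin d → ℤ) → ℂ,
      weakNorm ((d : ℝ) / (d - k)) (sphMax k f) ≤
        (C : ℝ≥0∞) * lorentzNorm ((d : ℝ) / (d - k)) (fun x => ENNReal.ofReal ‖f x‖) :=
  fun k hk d hd => Pool.Agent.helper132_p.endpoint_p k hk d hd

end Pool.Agent.Results.MP_ff41bc_an.EndpointTwoKKMinusOne
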